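import Pool.Agent.K3h38.AD.Stm

/-!
# One step of the descent modulo a uniformizer (project AD, brick STEP)
-/

set_option autoImplicit false
set_option linter.all false

namespace Pool.Agent.K3h73.AD

open MvPolynomial Pool.Agent.K3h38.AD

section

variable {m : ℕ} {A : Type} [CommRing A]

/-- the left side of the equation -/
noncomputable def LH (f : MvPolynomial (Fin m) A) (α : A) (w : MvPolynomial (Fin m) A)
    (Θ : Fin m → MvPolynomial (Fin m) A) : MvPolynomial (Fin m) A :=
  C α * f * (w * ∑ i, pderiv i (Θ i) - ∑ i, Θ i * pderiv i w) - w * ∑ i, Θ i * pderiv i f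

theorem LH_sub (f : MvPolynomial (Fin m) A) (α : A) (w : MvPolynomial (Fin m) A)
    (Θ Ψ : Fin m → MvPolynomial (Fin m) A) :
    LH f α w (fun i => Θ i - Ψ i) = LH f α w Θ - LH f α w Ψ := by
  have h1 : ∑ i, pderiv i (Θ i - Ψ i) = ∑ i, pderiv i (Θ i) - ∑ i, pderiv i (Ψ i) := by
    rw [← Finset.sum_sub_distrib]
    exact Finset.sum_congr rfl fun i _ => by rw [map_sub]
  have h2 : ∀ g : MvPolynomial (Fin m) A, ∑ i, (Θ i - Ψ i) * pderiv i g =
      ∑ i, Θ i * pderiv i g - ∑ i, Ψ i * pderiv i g := by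
    intro g
    rw [← Finset.sum_sub_distrib]
    exact Finset.sum_congr rfl fun i _ => by rw [sub_mul]
  unfold LH
  rw [h1, h2, h2]
  ring

theorem LH_C (f : MvPolynomial (Fin m) A) (α s : A) (w : MvPolynomial (Fin m) A)
    (Θ : Fin m → MvPolynomial (Fin m) A) :
    LH f α w (fun i => C s * Θ i) = C s * LH f α w Θ := by
  have h1 : ∑ i, pderiv i (C s * Θ i) = C s * ∑ i, pderiv i (Θ i) := by
    rw [Finset.mul_sum]
    exact Finset.sum_congr rfl fun i _ => by rw [pderiv_C_mul]
  have h2 : ∀ g : MvPolynomial (Fin m) A, ∑ i, C s * Θ i * pderiv i g =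
      C s * ∑ i, Θ i * pderiv i g := by
    intro g
    rw [Finset.mul_sum]
    exact Finset.sum_congr rfl fun i _ => by rw [mul_assoc]
  unfold LH
  rw [h1, h2, h2]
  ring

theorem LH_mul (f : MvPolynomial (Fin m) A) (α : A) (g w : MvPolynomial (Fin m) A)
    (Θ : Fin m → MvPolynomial (Fin m) A) :
    LH f α (g * w) (fun i => g * Θ i) = g ^ 2 * LH f α w Θ := by
  have h1 : ∑ i, pderiv i (g * Θ i) = g * ∑ i, pderiv i (Θ i) + ∑ i, Θ i * pderiv i g := by
    rw [Finset.mul_sum, ← Finset.sum_add_distrib]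
    exact Finset.sum_congr rfl fun i _ => by
      rw [Derivation.leibniz, smul_eq_mul, smul_eq_mul]
  have h2 : ∑ i, g * Θ i * pderiv i (g * w) =
      g * (g * ∑ i, Θ i * pderiv i w + w * ∑ i, Θ i * pderiv i g) := by
    simp only [Finset.mul_sum, ← Finset.sum_add_distrib]
    exact Finset.sum_congr rfl fun i _ => by
      rw [Derivation.leibniz, smul_eq_mul, smul_eq_mul]
      ring
  have h3 : ∑ i, g * Θ i * pderiv i f = g * ∑ i, Θ i * pderiv i f := by
    rw [Finset.mul_sum]
    exact Finset.sum_congr rfl fun i _ => by rw [mul_assoc]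
  unfold LH
  rw [h1, h2, h3]
  ring

theorem anti_zero (F : Fin m → Fin m → MvPolynomial (Fin m) A) (h1 : ∀ i l, F i l = - F l i)
    (h0 : ∀ i, F i i = 0) : ∑ i, ∑ l, F i l = 0 := by
  rw [← Finset.sum_product']
  refine Finset.sum_involution (fun p _ => (p.2, p.1)) ?_ ?_ ?_ ?_
  · intro p _
    show F p.1 p.2 + F p.2 p.1 = 0
    rw [h1 p.1 p.2]
    ring
  · intro p _ hne heq
    have h2 : p.2 = p.1 := congrArg Prod.fst heq
    apply hne
    rw [h2]
    exact h0 _
  · intro p _
    simp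
  · intro p _
    rfl

theorem pcomm {σ R : Type} [CommRing R] (i j : σ) (p : MvPolynomial σ R) :
    pderiv i (pderiv j p) = pderiv j (pderiv i p) := by
  classical
  induction p using MvPolynomial.induction_on with
  | C a => simp
  | add p q hp hq => rw [map_add, map_add, map_add, map_add, hp, hq]
  | mul_X p n hp =>
    have h1 : ∀ a b : σ, pderiv a (pderiv b (X n : MvPolynomial σ R)) = 0 := by
      intro a b
      rw [pderiv_X]
      by_cases h : n = b
      · subst h
        rw [Pi.single_eq_same, pderiv_one]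
      · rw [Pi.single_eq_of_ne h, map_zero]
    rw [pderiv_mul, pderiv_mul, map_add, map_add, pderiv_mul, pderiv_mul, pderiv_mul, pderiv_mul,
      h1, h1, hp]
    ring

variable (B : Fin m → Fin m → MvPolynomial (Fin m) A) (h1 : ∀ i l, B i l = - B l i)
  (h0 : ∀ i, B i i = 0)

include h1 h0

theorem grad_self (g : MvPolynomial (Fin m) A) :
    ∑ i, (∑ l, B i l * pderiv l g) * pderiv i g = 0 := by
  have h := anti_zero (fun i l => B i l * pderiv l g * pderiv i g)
    (fun i l => by beta_reduce; rw [h1 i l]; ring) (fun i => by beta_reduce; rw [h0]; ring)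
  rw [← h]
  exact Finset.sum_congr rfl fun i _ => by rw [Finset.sum_mul]

theorem grad_swap (g h : MvPolynomial (Fin m) A) :
    ∑ i, (∑ l, B i l * pderiv l g) * pderiv i h = - ∑ i, (∑ l, B i l * pderiv l h) * pderiv i g := by
  have h := anti_zero (fun i l => B i l * pderiv l g * pderiv i h + B i l * pderiv l h * pderiv i g)
    (fun i l => by beta_reduce; rw [h1 i l]; ring) (fun i => by beta_reduce; rw [h0]; ring)
  rw [eq_neg_iff_add_eq_zero, ← h, ← Finset.sum_add_distrib]
  exact Finset.sum_congr rfl fun i _ => by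
    rw [Finset.sum_mul, Finset.sum_mul, ← Finset.sum_add_distrib]

theorem div_grad (g : MvPolynomial (Fin m) A) :
    ∑ i, pderiv i (∑ l, B i l * pderiv l g) = - ∑ i, (∑ l, pderiv l (B i l)) * pderiv i g := by
  have h := anti_zero (fun i l => pderiv i (B i l) * pderiv l g + B i l * pderiv i (pderiv l g) +
      pderiv l (B i l) * pderiv i g)
    (fun i l => by
      beta_reduce
      rw [h1 i l, map_neg, map_neg, pcomm i l g]
      ring)
    (fun i => by
      beta_reduce
      rw [h0, map_zero]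
      ring)
  rw [eq_neg_iff_add_eq_zero, ← h, ← Finset.sum_add_distrib]
  exact Finset.sum_congr rfl fun i _ => by
    rw [map_sum, Finset.sum_mul, ← Finset.sum_add_distrib]
    exact Finset.sum_congr rfl fun l _ => by
      rw [pderiv_mul]

theorem div_div : ∑ i, pderiv i (∑ l, pderiv l (B i l)) = 0 := by
  have h := anti_zero (fun i l => pderiv i (pderiv l (B i l)))
    (fun i l => by
      beta_reduce
      rw [h1 i l, map_neg, map_neg, pcomm i l])
    (fun i => by
      beta_reduce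
      rw [h0, map_zero, map_zero])
  rw [← h]
  exact Finset.sum_congr rfl fun i _ => by rw [map_sum]

theorem LH_gamma (f W : MvPolynomial (Fin m) A) (α : A) :
    LH f α (W ^ 2) (fun i => C (1 - α) * (W * ∑ l, B i l * pderiv l f) -
      C α * (f * (W * ∑ l, pderiv l (B i l) - ∑ l, B i l * pderiv l W))) = 0 := by
  obtain ⟨u, hu⟩ : ∃ u : Fin m → MvPolynomial (Fin m) A, ∀ i, ∑ l, B i l * pderiv l f = u i :=
    ⟨_, fun i => rfl⟩
  obtain ⟨o, ho⟩ : ∃ u : Fin m → MvPolynomial (Fin m) A, ∀ i, ∑ l, B i l * pderiv l W = u i :=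
    ⟨_, fun i => rfl⟩
  obtain ⟨δ, hδ⟩ : ∃ u : Fin m → MvPolynomial (Fin m) A, ∀ i, ∑ l, pderiv l (B i l) = u i :=
    ⟨_, fun i => rfl⟩
  have e1 := grad_self B h1 h0 f
  have e2 := grad_self B h1 h0 W
  have e3 := grad_swap B h1 h0 W f
  have e4 := div_grad B h1 h0 f
  have e5 := div_grad B h1 h0 W
  have e6 := div_div B h1 h0
  simp only [hu, ho, hδ] at e1 e2 e3 e4 e5 e6 ⊢
  have hC : C (1 - α) = (1 : MvPolynomial (Fin m) A) - C α := by rw [C_sub, C_1]
  have d1 : ∑ i, pderiv i (C (1 - α) * (W * u i) - C α * (f * (W * δ i - o i))) =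
      C (1 - α) * (∑ i, u i * pderiv i W + W * ∑ i, pderiv i (u i)) -
      C α * (W * ∑ i, δ i * pderiv i f - ∑ i, o i * pderiv i f) -
      C α * f * (∑ i, δ i * pderiv i W + W * ∑ i, pderiv i (δ i) - ∑ i, pderiv i (o i)) := by
    simp only [Finset.mul_sum, ← Finset.sum_add_distrib, ← Finset.sum_sub_distrib]
    refine Finset.sum_congr rfl fun i _ => ?_
    rw [Derivation.map_sub, pderiv_C_mul, pderiv_C_mul, pderiv_mul, pderiv_mul,
      Derivation.map_sub, pderiv_mul]
    ring
  have d2 : ∀ g : MvPolynomial (Fin m) A,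
      ∑ i, (C (1 - α) * (W * u i) - C α * (f * (W * δ i - o i))) * pderiv i g =
      C (1 - α) * W * ∑ i, u i * pderiv i g -
      C α * f * (W * ∑ i, δ i * pderiv i g - ∑ i, o i * pderiv i g) := by
    intro g
    simp only [Finset.mul_sum, ← Finset.sum_add_distrib, ← Finset.sum_sub_distrib]
    refine Finset.sum_congr rfl fun i _ => ?_
    ring
  have d3 : ∑ i, (C (1 - α) * (W * u i) - C α * (f * (W * δ i - o i))) * pderiv i (W ^ 2) =
      2 * W * ∑ i, (C (1 - α) * (W * u i) - C α * (f * (W * δ i - o i))) * pderiv i W := by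
    rw [Finset.mul_sum]
    refine Finset.sum_congr rfl fun i _ => ?_
    rw [pow_two, pderiv_mul]
    ring
  unfold LH
  rw [d3, d1, d2, d2, e1, e2, e3, e4, e5, e6, hC]
  ring

end

theorem t_STEP : Pool.Agent.K3h38.AD.S_DIV → Pool.Agent.K3h38.AD.S_STEP := by
  intro hDIV m A k K _ _ _ _ φ hφ ϖ hϖ hker j q f a' hg hdet c w Θ hw hS
  have hϖ0 : φ ϖ = 0 := (hker ϖ).2 dvd_rfl
  have hw0 : map φ w ≠ 0 := by
    intro h
    apply hw
    rw [h, eval₂_zero]
  -- reduction
  have hred : ∑ i, map φ (Θ i) * pderiv i (map φ f) = 0 := by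
    have h := congrArg (map φ) hS
    simp only [map_sub, map_mul, map_pow, map_C, map_sum, ← pderiv_map, hϖ0, zero_mul, C_0,
      zero_sub, neg_eq_zero] at h
    exact (mul_eq_zero.1 h).resolve_left hw0
  obtain ⟨Gb, Bb, hGb, hB1, hB0, hBG⟩ := hDIV m k K j q (fun i => pderiv i (map φ f))
    (fun i => map φ (Θ i)) hg hdet hred
  obtain ⟨G, hG⟩ := map_surjective φ hφ Gb
  choose b hb using fun i l => map_surjective φ hφ (Bb i l)
  obtain ⟨B, hB⟩ : ∃ B : Fin m → Fin m → MvPolynomial (Fin m) A,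
      B = fun i l => if i < l then b i l else if l < i then - b l i else 0 := ⟨_, rfl⟩
  have h1 : ∀ i l, B i l = - B l i := by
    intro i l
    rw [hB]
    beta_reduce
    rcases lt_trichotomy i l with h | h | h
    · rw [if_pos h, if_neg (not_lt.2 h.le), if_pos h, neg_neg]
    · subst h
      rw [if_neg (lt_irrefl _), if_neg (lt_irrefl _), neg_zero]
    · rw [if_neg (not_lt.2 h.le), if_pos h, if_pos h]
  have h0 : ∀ i, B i i = 0 := by
    intro i
    rw [hB]
    beta_reduce
    rw [if_neg (lt_irrefl _), if_neg (lt_irrefl _)]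
  have hBm : ∀ i l, map φ (B i l) = Bb i l := by
    intro i l
    rw [hB]
    beta_reduce
    rcases lt_trichotomy i l with h | h | h
    · rw [if_pos h, hb]
    · subst h
      rw [if_neg (lt_irrefl _), if_neg (lt_irrefl _), map_zero, hB0]
    · rw [if_neg (not_lt.2 h.le), if_pos h, map_neg, hb, hB1 i l]
  have hT : ∀ i, ∃ T : MvPolynomial (Fin m) A, G * Θ i - ∑ l, B i l * pderiv l f = C ϖ * T := by
    intro i
    have h2 : map φ (G * Θ i - ∑ l, B i l * pderiv l f) = 0 := by
      rw [map_sub, map_mul, hG, map_sum, hBG i, sub_eq_zero]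
      exact Finset.sum_congr rfl fun l _ => by rw [map_mul, hBm, pderiv_map]
    have h3 : C ϖ ∣ G * Θ i - ∑ l, B i l * pderiv l f := by
      rw [C_dvd_iff_dvd_coeff]
      intro d
      rw [← hker, ← coeff_map, h2, coeff_zero]
    exact h3
  choose T hT using hT
  obtain ⟨W, hW⟩ : ∃ W, W = G * w := ⟨_, rfl⟩
  refine ⟨W ^ 2, fun i => C a' * (f * (W * ∑ l, pderiv l (B i l) - ∑ l, B i l * pderiv l W)) +
    C (1 - ϖ * a') * (W * T i), ?_, ?_⟩
  · rw [map_pow, hW, map_mul, hG, eval₂_pow, eval₂_mul]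
    exact pow_ne_zero 2 (mul_ne_zero hGb hw)
  · have hne : (C ϖ : MvPolynomial (Fin m) A) ≠ 0 := by
      rwa [Ne, C_eq_zero]
    show LH f (ϖ * a') (W ^ 2) _ = _
    refine mul_left_cancel₀ hne ?_
    rw [← LH_C]
    have k1 : (fun i => C ϖ * (C a' * (f * (W * ∑ l, pderiv l (B i l) - ∑ l, B i l * pderiv l W)) +
        C (1 - ϖ * a') * (W * T i))) = fun i => C (1 - ϖ * a') * (W * (G * Θ i)) -
        (C (1 - ϖ * a') * (W * ∑ l, B i l * pderiv l f) -
          C (ϖ * a') * (f * (W * ∑ l, pderiv l (B i l) - ∑ l, B i l * pderiv l W))) := by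
      funext i
      have h2 := hT i
      rw [C_mul]
      linear_combination (-(C (1 - ϖ * a') * W)) * h2
    rw [k1, LH_sub, LH_gamma B h1 h0, sub_zero, LH_C]
    have k2 : LH f (ϖ * a') (W ^ 2) (fun i => W * (G * Θ i)) = W ^ 2 * (G ^ 2 *
        LH f (ϖ * a') w Θ) := by
      rw [pow_two W, LH_mul, hW, LH_mul]
      ring
    have k3 : LH f (ϖ * a') w Θ = C (ϖ * c) * f * w ^ 2 := hS
    rw [k2, k3, hW, C_mul, C_mul]
    ring

end Pool.Agent.K3h73.AD
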